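import Pool.Agent.Helper44.GN.Defs

/-!
# HR2: Herbst's argument
-/

open Finset MeasureTheory Filter Topology Matrix
open scoped ENNReal ContDiff

namespace Pool.Agent.Helper44.GN

open Pool.Agent.Helper44.GF

theorem hr2_mul {n : ℕ} (δ c : ℝ) (ρ f : (Fin n → ℝ) → ℝ) :
    IB δ ρ (fun z => c * f z) = c * IB δ ρ f := by
  unfold IB
  rw [← integral_const_mul]
  refine integral_congr_ae (Filter.Eventually.of_forall fun z => ?_)
  simp only
  ring

theorem hr2_nn {n : ℕ} (δ : ℝ) (ρ f : (Fin n → ℝ) → ℝ) (hρ : ∀ z ∈ Bx n δ, 0 < ρ z)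
    (hf : ∀ z ∈ Bx n δ, 0 ≤ f z) : 0 ≤ IB δ ρ f := by
  unfold IB
  have hm : MeasurableSet (Bx n δ) := MeasurableSet.univ_pi fun _ => measurableSet_Icc
  exact setIntegral_nonneg hm fun z hz => mul_nonneg (hf z hz) (hρ z hz).le

theorem st_HR2 (hHR1 : ST_HR1) (hLGI : ST_LGI) (hDV : ST_DV) (hCAL : ST_CAL) : ST_HR2 := by
  intro n δ k ρ F S hW hF hS hS0 hk0 hk hEF hES
  obtain ⟨hpos, h1pos, hder⟩ := hLGI n δ ρ F hW hF
  have hHR := hHR1 n δ ρ S hW hS hS0 hES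
  obtain ⟨I1, hI1⟩ : ∃ I1, I1 = IB δ ρ (fun _ => (1 : ℝ)) := ⟨_, rfl⟩
  obtain ⟨Sb, hSb⟩ : ∃ Sb, Sb = IB δ ρ S / IB δ ρ (fun _ => (1 : ℝ)) := ⟨_, rfl⟩
  have hSb0 : 0 ≤ Sb := by
    rw [hSb]
    exact div_nonneg (hr2_nn δ ρ S hW.r0 hS0) h1pos.le
  rw [← hSb] at hHR
  -- the functions
  obtain ⟨Λ, hΛ⟩ : ∃ Λ : ℝ → ℝ, Λ = fun t =>
      Real.log (IB δ ρ (fun z => Real.exp (t * F z)) / IB δ ρ (fun _ => 1)) := ⟨_, rfl⟩
  obtain ⟨Λ', hΛ'⟩ : ∃ Λ' : ℝ → ℝ, Λ' = fun t =>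
      IB δ ρ (fun z => F z * Real.exp (t * F z)) / IB δ ρ (fun z => Real.exp (t * F z)) :=
    ⟨_, rfl⟩
  obtain ⟨c, hc⟩ : ∃ c, c = k * (100 / 89) * Sb := ⟨_, rfl⟩
  have hc0 : 0 ≤ c := by rw [hc]; positivity
  have hkey : ∀ t : ℝ, 0 < t → t ≤ 1 → t * Λ' t - Λ t ≤
      t ^ 2 * (c * (1 + 66 / 100 * t ^ 2 + 4356 / 10000 * t ^ 4 + 8456 / 10000 * t ^ 6)) := by
    intro t ht0 ht1
    obtain ⟨A, hA⟩ : ∃ A, A = IB δ ρ (fun z => Real.exp (t * F z)) := ⟨_, rfl⟩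
    obtain ⟨ES, hESd⟩ : ∃ ES, ES = IB δ ρ (fun z => Real.exp (t * F z) * S z) := ⟨_, rfl⟩
    have hA0 : 0 < A := by rw [hA]; exact hpos t
    have hE0 : 0 ≤ ES := by
      rw [hESd]
      exact hr2_nn δ ρ _ hW.r0 fun z hz => mul_nonneg (Real.exp_pos _).le (hS0 z hz)
    have hEn : En δ ρ (fun z => t * F z) =
        t * IB δ ρ (fun z => F z * Real.exp (t * F z)) - A * Λ t := by
      have e3 : Λ t = Real.log (A / IB δ ρ (fun _ => 1)) := by rw [hΛ, hA]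
      have e4 : IB δ ρ (fun z => (t * F z) * Real.exp (t * F z)) =
          t * IB δ ρ (fun z => F z * Real.exp (t * F z)) := by
        rw [← hr2_mul]
        congr 1
        ext z
        ring
      unfold En
      simp only
      rw [← hA, e3, e4]
    have h1 := hEF t ht0.le ht1
    rw [← hESd] at h1
    have h2 := hDV n δ ρ (fun z => t * F z) (fun z => 1 / 3 * S z) hW
      (continuousOn_const.mul hF) (continuousOn_const.mul hS)
    have e1 : IB δ ρ (fun z => Real.exp (t * F z) * (1 / 3 * S z)) = 1 / 3 * ES := by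
      rw [hESd, ← hr2_mul]
      congr 1
      ext z
      ring
    rw [e1, ← hA] at h2
    have h3 : A * Real.log (IB δ ρ (fun z => Real.exp (1 / 3 * S z)) / IB δ ρ (fun _ => 1)) ≤
        A * (100 / 267 * Sb) := mul_le_mul_of_nonneg_left hHR hA0.le
    -- bound of ES / A
    obtain ⟨E, hE⟩ : ∃ E, E = ES / A := ⟨_, rfl⟩
    have hEA : ES = E * A := by rw [hE]; field_simp
    have hE00 : 0 ≤ E := by rw [hE]; positivity
    have h4 : 1 / 3 * E ≤ k * t ^ 2 * E + 100 / 267 * Sb := by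
      have h5 : (1 / 3 * E) * A ≤ (k * t ^ 2 * E + 100 / 267 * Sb) * A := by
        rw [hEA] at h1 h2
        linarith
      exact le_of_mul_le_mul_right h5 hA0
    obtain ⟨x, hx⟩ : ∃ x : ℝ, x = 66 / 100 * t ^ 2 := ⟨_, rfl⟩
    have ht2 : t ^ 2 ≤ 1 := by nlinarith
    have hx0 : 0 ≤ x := by rw [hx]; positivity
    have hx1 : x ≤ 66 / 100 := by rw [hx]; linarith
    have hkt : 3 * (k * t ^ 2) ≤ x := by
      rw [hx]
      have := mul_le_mul_of_nonneg_right hk (sq_nonneg t)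
      linarith
    have h5 : E * (1 - x) ≤ 100 / 89 * Sb := by
      have : E * (3 * (k * t ^ 2)) ≤ E * x := mul_le_mul_of_nonneg_left hkt hE00
      linarith
    have h6 : 1 ≤ (1 - x) * (1 + x + x ^ 2 + x ^ 3 * (100 / 34)) := by
      have h7 : 0 ≤ x ^ 3 * ((66 / 100 - x) * (100 / 34)) := by
        apply mul_nonneg (by positivity)
        apply mul_nonneg (by linarith) (by norm_num)
      nlinarith
    have hP0 : 0 ≤ 1 + x + x ^ 2 + x ^ 3 * (100 / 34) := by positivity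
    have h7 : E ≤ 100 / 89 * Sb * (1 + x + x ^ 2 + x ^ 3 * (100 / 34)) := by
      calc E ≤ E * ((1 - x) * (1 + x + x ^ 2 + x ^ 3 * (100 / 34))) :=
            le_mul_of_one_le_right hE00 h6
        _ = E * (1 - x) * (1 + x + x ^ 2 + x ^ 3 * (100 / 34)) := by ring
        _ ≤ _ := mul_le_mul_of_nonneg_right h5 hP0
    have h8 : 1 + x + x ^ 2 + x ^ 3 * (100 / 34) ≤
        1 + 66 / 100 * t ^ 2 + 4356 / 10000 * t ^ 4 + 8456 / 10000 * t ^ 6 := by
      have h9 : 0 ≤ t ^ 6 := by positivity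
      rw [hx]
      nlinarith
    have h9 : E ≤ 100 / 89 * Sb *
        (1 + 66 / 100 * t ^ 2 + 4356 / 10000 * t ^ 4 + 8456 / 10000 * t ^ 6) :=
      h7.trans (mul_le_mul_of_nonneg_left h8 (by positivity))
    have h10 : t * Λ' t - Λ t ≤ k * t ^ 2 * E := by
      have h11 : (t * Λ' t - Λ t) * A ≤ (k * t ^ 2 * E) * A := by
        have e2 : Λ' t * A = IB δ ρ (fun z => F z * Real.exp (t * F z)) := by
          rw [hΛ', hA]
          exact div_mul_cancel₀ _ (hpos t).ne'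
        rw [hEn, ← e2, hEA] at h1
        linarith
      exact le_of_mul_le_mul_right h11 hA0
    refine h10.trans ?_
    have h12 := mul_le_mul_of_nonneg_left h9 (show 0 ≤ k * t ^ 2 by positivity)
    rw [hc]
    linarith
  have hd : ∀ t, HasDerivAt Λ (Λ' t) t := by
    intro t
    rw [hΛ, hΛ']
    exact hder t
  have e0 : (fun z : Fin n → ℝ => Real.exp (0 * F z)) = fun _ => 1 := by
    ext z
    rw [zero_mul, Real.exp_zero]
  have hΛ0 : Λ 0 = 0 := by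
    rw [hΛ]
    simp only
    rw [e0, div_self h1pos.ne', Real.log_one]
  have hΛ'0 : Λ' 0 = IB δ ρ F / IB δ ρ (fun _ => 1) := by
    rw [hΛ']
    simp only
    rw [e0]
    congr 2
    ext z
    rw [zero_mul, Real.exp_zero, mul_one]
  have hH : ∀ t ∈ Set.Icc (0 : ℝ) 1, HasDerivAt
      (fun t => c * (t + 22 / 100 * t ^ 3 + 8712 / 100000 * t ^ 5 + 1208 / 10000 * t ^ 7))
      (c * (1 + 66 / 100 * t ^ 2 + 4356 / 10000 * t ^ 4 + 8456 / 10000 * t ^ 6)) t := by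
    intro t _
    have h := ((((hasDerivAt_id t).add ((hasDerivAt_pow 3 t).const_mul (22 / 100 : ℝ))).add
      ((hasDerivAt_pow 5 t).const_mul (8712 / 100000 : ℝ))).add
      ((hasDerivAt_pow 7 t).const_mul (1208 / 10000 : ℝ))).const_mul c
    refine h.congr_deriv ?_
    push_cast
    ring
  have hfin := hCAL Λ Λ'
    (fun t => c * (t + 22 / 100 * t ^ 3 + 8712 / 100000 * t ^ 5 + 1208 / 10000 * t ^ 7))
    (fun t => c * (1 + 66 / 100 * t ^ 2 + 4356 / 10000 * t ^ 4 + 8456 / 10000 * t ^ 6)) 1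
    one_pos hd hΛ0 hH (by simp) hkey
  have e1 : Λ 1 = Real.log (IB δ ρ (fun z => Real.exp (F z)) / IB δ ρ (fun _ => 1)) := by
    rw [hΛ]
    simp only [one_mul]
  rw [e1, hΛ'0] at hfin
  refine hfin.trans ?_
  rw [← hSb]
  have h13 : 0 ≤ k * Sb := mul_nonneg hk0 hSb0
  rw [hc]
  nlinarith

end Pool.Agent.Helper44.GN
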